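import Pool.Agent.MDG.Stmts

/-!
# Squad MDG, row CRX: the flow between the nodes (MP_3faef8_co)
-/

set_option autoImplicit false

open Finset Pool.Agent.HEC

namespace Pool.Agent.MDG.H89

open Classical in
theorem cnt_congr {α : Type} [Fintype α] {p q : α → Prop} (h : ∀ a, p a ↔ q a) :
    cnt p = cnt q := by
  have : p = q := funext fun a => propext (h a)
  rw [this]

open Classical in
theorem cnt_or {α : Type} [Fintype α] (p q : α → Prop) (h : ∀ a, ¬ (p a ∧ q a)) :
    cnt (fun a => p a ∨ q a) = cnt p + cnt q := by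
  unfold cnt
  rw [← Finset.card_union_of_disjoint (Finset.disjoint_filter.2 fun a _ h1 h2 => h a ⟨h1, h2⟩)]
  congr 1
  ext a
  simp

open Classical in
theorem cnt_sub {α : Type} [Fintype α] (P : α → Prop) [Fintype {a // P a}] (Q : α → Prop) :
    cnt (fun e : {a // P a} => Q e.1) = cnt (fun a => P a ∧ Q a) := by
  unfold cnt
  refine Finset.card_bij (fun e _ => e.1) ?_ ?_ ?_
  · intro e he
    simp only [Finset.mem_filter, Finset.mem_univ, true_and] at he ⊢
    exact ⟨e.2, he⟩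
  · intro a _ b _ h
    exact Subtype.ext h
  · intro b hb
    simp only [Finset.mem_filter, Finset.mem_univ, true_and] at hb
    exact ⟨⟨b, hb.1⟩, by simpa using hb.2, rfl⟩

open Classical in
theorem cnt_swap {V : Type} [Fintype V] (R : V × V → Prop) :
    cnt R = cnt (fun q : V × V => R q.swap) := by
  unfold cnt
  refine Finset.card_bij (fun e _ => e.swap) ?_ ?_ ?_
  · intro e he
    simpa using he
  · intro a _ b _ h
    exact Prod.swap_injective h
  · intro b hb
    exact ⟨b.swap, by simpa using hb, by simp⟩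

open Classical in
theorem cnt_fold {V : Type} [Fintype V] (t : V → Bool) (R : V × V → Prop)
    (h1 : ∀ q, R q → t q.1 ≠ t q.2) (h2 : ∀ q, ¬ (R q ∧ R q.swap)) :
    cnt R = cnt (fun q : V × V => t q.1 = true ∧ (R q ∨ R q.swap)) := by
  have e1 : cnt R = cnt (fun q : V × V => (t q.1 = true ∧ R q) ∨ (t q.1 ≠ true ∧ R q)) := by
    apply cnt_congr
    intro q
    by_cases h : t q.1 = true <;> simp [h]
  rw [e1, cnt_or _ _ (by rintro q ⟨a, b⟩; exact b.1 a.1), cnt_swap fun q : V × V => t q.1 ≠ true ∧ R q]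
  rw [← cnt_or]
  · apply cnt_congr
    intro q
    constructor
    · rintro (⟨a, b⟩ | ⟨a, b⟩)
      · exact ⟨a, Or.inl b⟩
      · have := h1 _ b
        refine ⟨?_, Or.inr b⟩
        simp only [Prod.fst_swap, Prod.snd_swap] at this a
        cases h : t q.1
        · cases h' : t q.2
          · exact absurd (h'.trans h.symm) this
          · exact absurd h' a
        · rfl
    · rintro ⟨a, b | b⟩
      · exact Or.inl ⟨a, b⟩
      · refine Or.inr ⟨?_, b⟩
        have := h1 _ b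
        simp only [Prod.fst_swap, Prod.snd_swap] at this ⊢
        intro h
        exact this (h.trans a.symm)
  · rintro q ⟨a, b⟩
    exact h2 q ⟨a.2, b.2⟩

theorem bri_symm {V : Type} [Fintype V] (H : SimpleGraph V) {u v : V} (h : Bri H u v) :
    Bri H v u := by
  obtain ⟨h1, W, hW, h2⟩ := h
  exact ⟨h1.symm, W, hW, h2.elim (fun h => Or.inr ⟨h.2, h.1⟩) fun h => Or.inl ⟨h.2, h.1⟩⟩

section

variable {V : Type} [Fintype V] (H : SimpleGraph V) (t : V → Bool) (p : V → V)

/-- edges between different nodes -/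
def PE (q : V × V) : Prop := H.Adj q.1 q.2 ∧ t q.1 = true ∧ p q.1 ≠ p q.2

/-- edges between different nodes which are no bridges -/
def P0 (q : V × V) : Prop := PE H t p q ∧ ¬ Bri H q.1 q.2

open Classical in
theorem mct_eq (hB : BrgStmt) (ht : ∀ a b, H.Adj a b → t a ≠ t b) (W : Finset V)
    [Fintype {q : V × V // P0 H t p q}] :
    mct (fun e : {q : V × V // P0 H t p q} => p e.1.1) (fun e => p e.1.2) W ≠ 1 := by
  have hb := hB V H t (univ.filter fun v => p v ∈ W) ht
  have e1 := cnt_fold t (fun q : V × V => q.1 ∈ (univ.filter fun v => p v ∈ W) ∧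
      q.2 ∉ (univ.filter fun v => p v ∈ W) ∧ H.Adj q.1 q.2 ∧ ¬ Bri H q.1 q.2)
      (fun q h => ht _ _ h.2.2.1) (by
        rintro q ⟨a, b⟩
        exact b.2.1 a.1)
  have e2 : mct (fun e : {q : V × V // P0 H t p q} => p e.1.1) (fun e => p e.1.2) W =
      cnt (fun q : V × V => P0 H t p q ∧
        ((p q.1 ∈ W ∧ p q.2 ∉ W) ∨ (p q.1 ∉ W ∧ p q.2 ∈ W))) :=
    cnt_sub (P0 H t p) (fun q => (p q.1 ∈ W ∧ p q.2 ∉ W) ∨ (p q.1 ∉ W ∧ p q.2 ∈ W))
  rw [e1] at hb
  rw [e2]
  intro h
  apply hb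
  rw [← h]
  apply cnt_congr
  intro q
  simp only [Finset.mem_filter, Finset.mem_univ, true_and, Prod.fst_swap, Prod.snd_swap, P0, PE]
  constructor
  · rintro ⟨a, ⟨b1, b2, b3, b4⟩ | ⟨b1, b2, b3, b4⟩⟩
    · exact ⟨⟨⟨b3, a, fun h => b2 (h ▸ b1)⟩, b4⟩, Or.inl ⟨b1, b2⟩⟩
    · exact ⟨⟨⟨b3.symm, a, fun h => b2 (h ▸ b1)⟩, fun h => b4 (bri_symm H h)⟩, Or.inr ⟨b2, b1⟩⟩
  · rintro ⟨⟨⟨a1, a2, a3⟩, a4⟩, ⟨b1, b2⟩ | ⟨b1, b2⟩⟩
    · exact ⟨a2, Or.inl ⟨b1, b2, a1, a4⟩⟩
    · exact ⟨a2, Or.inr ⟨b2, b1, a1.symm, fun h => a4 (bri_symm H h)⟩⟩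

open Classical in
theorem up_eq (ht : ∀ a b, H.Adj a b → t a ≠ t b) (ord : V → ℕ) (w : V)
    [Fintype {q : V × V // PE H t p q}] :
    cnt (fun e : {q : V × V // PE H t p q} =>
      (p e.1.1 = w ∧ ord w < ord (p e.1.2)) ∨ (p e.1.2 = w ∧ ord w < ord (p e.1.1))) =
    cnt (fun q : V × V => p q.1 = w ∧ H.Adj q.1 q.2 ∧ ord w < ord (p q.2)) := by
  rw [cnt_sub (PE H t p) (fun q => (p q.1 = w ∧ ord w < ord (p q.2)) ∨
    (p q.2 = w ∧ ord w < ord (p q.1)))]
  rw [cnt_fold t (fun q : V × V => p q.1 = w ∧ H.Adj q.1 q.2 ∧ ord w < ord (p q.2))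
    (fun q h => ht _ _ h.2.1) (by
      rintro q ⟨a, b⟩
      simp only [Prod.fst_swap, Prod.snd_swap] at b
      have := a.2.2
      rw [b.1] at this
      exact lt_irrefl _ this)]
  apply cnt_congr
  intro q
  simp only [Prod.fst_swap, Prod.snd_swap, PE]
  constructor
  · rintro ⟨⟨a1, a2, a3⟩, ⟨b1, b2⟩ | ⟨b1, b2⟩⟩
    · exact ⟨a2, Or.inl ⟨b1, a1, b2⟩⟩
    · exact ⟨a2, Or.inr ⟨b1, a1.symm, b2⟩⟩
  · rintro ⟨a, ⟨b1, b2, b3⟩ | ⟨b1, b2, b3⟩⟩
    · exact ⟨⟨b2, a, fun h => by rw [← h, b1] at b3; exact lt_irrefl _ b3⟩, Or.inl ⟨b1, b3⟩⟩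
    · exact ⟨⟨b2.symm, a, fun h => by rw [h, b1] at b3; exact lt_irrefl _ b3⟩, Or.inr ⟨b1, b3⟩⟩

open Classical in
theorem cut_eq (ht : ∀ a b, H.Adj a b → t a ≠ t b) (w : V) :
    cut H (nde p w) = cnt (fun q : V × V => PE H t p q ∧ (p q.1 = w ∨ p q.2 = w)) := by
  have e1 := cnt_fold t (fun q : V × V => q.1 ∈ nde p w ∧ q.2 ∉ nde p w ∧ H.Adj q.1 q.2)
      (fun q h => ht _ _ h.2.2) (by
        rintro q ⟨a, b⟩
        exact b.2.1 a.1)
  have e2 : cut H (nde p w) = cnt (fun q : V × V => q.1 ∈ nde p w ∧ q.2 ∉ nde p w ∧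
    H.Adj q.1 q.2) := rfl
  rw [e2, e1]
  apply cnt_congr
  intro q
  simp only [nde, Finset.mem_filter, Finset.mem_univ, true_and, Prod.fst_swap, Prod.snd_swap, PE]
  constructor
  · rintro ⟨a, ⟨b1, b2, b3⟩ | ⟨b1, b2, b3⟩⟩
    · exact ⟨⟨b3, a, fun h => b2 (h ▸ b1)⟩, Or.inl b1⟩
    · exact ⟨⟨b3.symm, a, fun h => b2 (h.trans b1)⟩, Or.inr b1⟩
  · rintro ⟨⟨a1, a2, a3⟩, b | b⟩
    · exact ⟨a2, Or.inl ⟨b, fun h => a3 (b.trans h.symm), a1⟩⟩
    · exact ⟨a2, Or.inr ⟨b, fun h => a3 (h.trans b.symm), a1.symm⟩⟩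

open Classical in
theorem sum_sub {α : Type} [Fintype α] (P : α → Prop) [Fintype {a // P a}] (y : {a // P a} → ℝ)
    (Q : α → Prop) :
    ∑ a, (if Q a then (if h : P a then y ⟨a, h⟩ else 0) else 0) =
      ∑ e : {a // P a}, if Q e.1 then y e else 0 := by
  rw [← Finset.sum_filter_add_sum_filter_not univ P]
  have e2 : ∑ a ∈ univ.filter (fun a => ¬ P a),
      (if Q a then (if h : P a then y ⟨a, h⟩ else 0) else 0) = 0 := by
    apply Finset.sum_eq_zero
    intro a ha
    simp only [Finset.mem_filter, Finset.mem_univ, true_and] at ha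
    simp [ha]
  rw [e2, add_zero]
  refine Finset.sum_bij' (fun a ha => ⟨a, (Finset.mem_filter.1 ha).2⟩) (fun e _ => e.1) ?_ ?_ ?_ ?_ ?_
  · intro a ha; simp
  · intro e he
    simp only [Finset.mem_filter, Finset.mem_univ, true_and]
    exact e.2
  · intro a ha; rfl
  · intro e he; rfl
  · intro a ha
    have := (Finset.mem_filter.1 ha).2
    simp [this]

end

theorem crx (hBr : BrgStmt) (hT : TutStmt) (hE : EsjStmt) (hC : CtlStmt) : CrxStmt := by
  intro V _ H t p ord k M ρ ht hord hM hMe hup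
  classical
  -- the even set on the non bridges
  let g : V → ℕ := fun w => if 2 * (2 * k + M) ≤
    mdg (fun e : {q : V × V // P0 H t p q} => p e.1.1) (fun e => p e.1.2) (fun _ => True) w
    then 2 * k + M else 0
  have hge : ∀ x, Even (g x) := by
    intro x
    simp only [g]
    split_ifs
    · exact Even.add ⟨k, by ring⟩ hMe
    · exact ⟨0, rfl⟩
  have hne : ∀ e : {q : V × V // P0 H t p q}, p e.1.1 ≠ p e.1.2 := fun e => e.2.1.2.2
  obtain ⟨J0, hJ0⟩ := hE V {q : V × V // P0 H t p q} (fun e => p e.1.1) (fun e => p e.1.2) g hne hge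
    (hT V {q : V × V // P0 H t p q} (fun e => p e.1.1) (fun e => p e.1.2) g hne
      (fun W => mct_eq H t p hBr ht W) hge (by
        intro x
        simp only [g]
        split_ifs with h
        · exact h
        · simp))
  let J : {q : V × V // PE H t p q} → Prop := fun e => ∃ h : P0 H t p e.1, J0 ⟨e.1, h⟩
  let Br : {q : V × V // PE H t p q} → Prop := fun e => Bri H e.1.1 e.1.2
  have hJm : ∀ w, mdg (fun e : {q : V × V // PE H t p q} => p e.1.1) (fun e => p e.1.2) J w =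
      mdg (fun e : {q : V × V // P0 H t p q} => p e.1.1) (fun e => p e.1.2) J0 w := by
    intro w
    have e1 : mdg (fun e : {q : V × V // PE H t p q} => p e.1.1) (fun e => p e.1.2) J w =
        cnt (fun q : V × V => PE H t p q ∧ ((∃ h : P0 H t p q, J0 ⟨q, h⟩) ∧
          (p q.1 = w ∨ p q.2 = w))) :=
      cnt_sub (PE H t p) (fun q => (∃ h : P0 H t p q, J0 ⟨q, h⟩) ∧ (p q.1 = w ∨ p q.2 = w))
    have e2 : mdg (fun e : {q : V × V // P0 H t p q} => p e.1.1) (fun e => p e.1.2) J0 w =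
        cnt (fun e : {q : V × V // P0 H t p q} => (∃ h : P0 H t p e.1, J0 ⟨e.1, h⟩) ∧
          (p e.1.1 = w ∨ p e.1.2 = w)) := by
      apply cnt_congr
      intro e
      constructor
      · rintro ⟨a, b⟩
        exact ⟨⟨e.2, a⟩, b⟩
      · rintro ⟨⟨a, a'⟩, b⟩
        exact ⟨a', b⟩
    rw [e1, e2, cnt_sub (P0 H t p)
      (fun q => (∃ h : P0 H t p q, J0 ⟨q, h⟩) ∧ (p q.1 = w ∨ p q.2 = w))]
    apply cnt_congr
    intro q
    constructor
    · rintro ⟨a, ⟨b, b'⟩, c⟩
      exact ⟨b, ⟨b, b'⟩, c⟩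
    · rintro ⟨a, ⟨b, b'⟩, c⟩
      exact ⟨b.1, ⟨b, b'⟩, c⟩
  have hcut : ∀ w, cut H (nde p w) =
      mdg (fun e : {q : V × V // P0 H t p q} => p e.1.1) (fun e => p e.1.2) (fun _ => True) w +
      mdg (fun e : {q : V × V // PE H t p q} => p e.1.1) (fun e => p e.1.2) Br w := by
    intro w
    have e1 : mdg (fun e : {q : V × V // P0 H t p q} => p e.1.1) (fun e => p e.1.2)
        (fun _ => True) w = cnt (fun q : V × V => P0 H t p q ∧ (True ∧
          (p q.1 = w ∨ p q.2 = w))) :=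
      cnt_sub (P0 H t p) (fun q => True ∧ (p q.1 = w ∨ p q.2 = w))
    have e2 : mdg (fun e : {q : V × V // PE H t p q} => p e.1.1) (fun e => p e.1.2) Br w =
        cnt (fun q : V × V => PE H t p q ∧ (Bri H q.1 q.2 ∧ (p q.1 = w ∨ p q.2 = w))) :=
      cnt_sub (PE H t p) (fun q => Bri H q.1 q.2 ∧ (p q.1 = w ∨ p q.2 = w))
    rw [cut_eq H t p ht w, e1, e2, ← cnt_or]
    · apply cnt_congr
      intro q
      constructor
      · rintro ⟨a, b⟩
        by_cases hb : Bri H q.1 q.2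
        · exact Or.inr ⟨a, hb, b⟩
        · exact Or.inl ⟨⟨a, hb⟩, trivial, b⟩
      · rintro (⟨a, _, b⟩ | ⟨a, _, b⟩)
        · exact ⟨a.1, b⟩
        · exact ⟨a, b⟩
    · rintro q ⟨a, b⟩
      exact a.1.2 b.2.1
  obtain ⟨y, hy1, hy2, hy3, hy4⟩ := hC V {q : V × V // PE H t p q} (fun e => p e.1.1)
    (fun e => p e.1.2) ord (2 * k) M J Br (fun w => 4 * (2 * k + M) ≤ cut H (nde p w)) ρ
    (fun e => e.2.2.2) hord hM (by rintro e ⟨⟨h, _⟩, b⟩; exact h.2 b)
    (by intro w; rw [hJm w]; exact (hJ0 w).1)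
    (by intro w; rw [up_eq H t p ht ord w]; exact hup w)
    (by
      intro w hw
      have h1 := hcut w
      by_cases h : 2 * (2 * k + M) ≤ mdg (fun e : {q : V × V // P0 H t p q} => p e.1.1)
          (fun e => p e.1.2) (fun _ => True) w
      · left
        have h2 := (hJ0 w).2
        have h3 : g w = 2 * k + M := by simp only [g]; rw [if_pos h]
        rw [hJm w]
        omega
      · right
        omega)
  -- the function
  let Y : V → V → ℝ := fun u v => if h : PE H t p (u, v) then y ⟨(u, v), h⟩ else 0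
  have hYP : ∀ u v, ¬ PE H t p (u, v) → Y u v = 0 := by
    intro u v h
    simp only [Y]
    rw [dif_neg h]
  have hex : ∀ u v, Y u v = 0 ∨ Y v u = 0 := by
    intro u v
    by_cases h : PE H t p (u, v)
    · right
      apply hYP
      rintro ⟨a, b, c⟩
      exact ht _ _ h.1 (h.2.1.trans b.symm)
    · exact Or.inl (hYP u v h)
  have hYb : ∀ u v, |Y u v| ≤ 1 := by
    intro u v
    simp only [Y]
    split_ifs with h
    · by_cases hj : J ⟨(u, v), h⟩
      · rw [hy1 _ hj]; norm_num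
      · by_cases hb : Br ⟨(u, v), h⟩
        · exact hy2 _ hb
        · rw [hy3 _ hj hb]; norm_num
    · norm_num
  have hYh : ∀ u v, ¬ Bri H u v → |Y u v| ≤ 1 / 2 := by
    intro u v hb
    simp only [Y]
    split_ifs with h
    · by_cases hj : J ⟨(u, v), h⟩
      · rw [hy1 _ hj]
      · rw [hy3 _ hj hb]; norm_num
    · norm_num
  have hor : ∀ u v (c : ℝ), |Y u v| ≤ c → |Y v u| ≤ c → |Y u v + Y v u| ≤ c := by
    intro u v c h1 h2
    rcases hex u v with h | h
    · rw [h, zero_add]; exact h2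
    · rw [h, add_zero]; exact h1
  refine ⟨fun u v => Y u v + Y v u, ⟨fun u v => add_comm _ _, ?_, ?_⟩, ?_, ?_, ?_⟩
  · intro u v h
    show Y u v + Y v u = 0
    rw [hYP u v (fun a => h a.1), hYP v u (fun a => h a.1.symm), add_zero]
  · intro u v
    exact hor u v 1 (hYb u v) (hYb v u)
  · intro u v h
    show Y u v + Y v u = 0
    rw [hYP u v (fun a => a.2.2 h), hYP v u (fun a => a.2.2 h.symm), add_zero]
  · intro u v h
    exact hor u v _ (hYh u v h) (hYh v u fun h' => h (bri_symm H h'))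
  · intro w
    obtain ⟨z, hz1, hz2⟩ := hy4 w
    refine ⟨z, ?_, hz2⟩
    rw [← hz1]
    have e1 := sum_sub (PE H t p) y (fun q => p q.1 = w)
    have e2 := sum_sub (PE H t p) y (fun q => p q.2 = w)
    have e3 : (∑ e : {q : V × V // PE H t p q}, if p e.1.1 = w then y e else 0) =
        ∑ v ∈ nde p w, ∑ u, Y v u := by
      rw [← e1, Fintype.sum_prod_type]
      unfold nde
      rw [Finset.sum_filter]
      apply Finset.sum_congr rfl
      intro v _
      simp only
      split_ifs with h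
      · rfl
      · simp
    have e4 : (∑ e : {q : V × V // PE H t p q}, if p e.1.2 = w then y e else 0) =
        ∑ v ∈ nde p w, ∑ u, Y u v := by
      rw [← e2, Fintype.sum_prod_type_right]
      unfold nde
      rw [Finset.sum_filter]
      apply Finset.sum_congr rfl
      intro v _
      simp only
      split_ifs with h
      · rfl
      · simp
    have e5 : net t p (fun u v => Y u v + Y v u) w =
        ∑ v ∈ nde p w, ∑ u, Y v u - ∑ v ∈ nde p w, ∑ u, Y u v := by
      unfold net bd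
      rw [← Finset.sum_sub_distrib]
      apply Finset.sum_congr rfl
      intro v _
      rw [← Finset.sum_sub_distrib, Finset.mul_sum]
      apply Finset.sum_congr rfl
      intro u _
      show (sg (t v) : ℝ) * (Y v u + Y u v) = Y v u - Y u v
      by_cases hv : t v = true
      · have : Y u v = 0 := hYP u v (fun a => ht _ _ a.1 (a.2.1.trans hv.symm))
        have hv' : sg (t v) = 1 := by simp [sg, hv]
        rw [this, hv']
        push_cast
        ring
      · have : Y v u = 0 := hYP v u (fun a => hv a.2.1)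
        have hv' : sg (t v) = -1 := by simp [sg, hv]
        rw [this, hv']
        push_cast
        ring
    rw [e5, ← e3, ← e4]

end Pool.Agent.MDG.H89
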